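import Pool.Agent.W527.PC.Stm

/-! Project PC (helper527): compactness, and no torsion of order `p`. -/

set_option autoImplicit false

namespace Pool.Agent.W143.PC

open Pool.Agent.W527.PC

lemma eq_one_of_pow (p : ℕ) [hp : Fact p.Prime] (h2 : p ≠ 2) (x : ℤ_[p]) (hx : x ^ p = 1) :
    x = 1 := by
  have hodd : Odd p := hp.1.odd_of_ne_two h2
  have h3 : (p : ℤ_[p]) ∣ x - 1 := by
    have h4 : PadicInt.toZMod (x - 1) = 0 := by
      rw [map_sub, map_one]
      have h5 : (PadicInt.toZMod x) ^ p = 1 := by rw [← map_pow, hx, map_one]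
      rw [ZMod.pow_card] at h5
      rw [h5, sub_self]
    have h6 : x - 1 ∈ RingHom.ker (PadicInt.toZMod : ℤ_[p] →+* ZMod p) := h4
    rw [PadicInt.ker_toZMod, PadicInt.maximalIdeal_eq_span_p, Ideal.mem_span_singleton] at h6
    exact h6
  have hpp : Prime (p : ℤ_[p]) := PadicInt.prime_p
  have h7 : ¬ (p : ℤ_[p]) ∣ x := by
    intro h
    have h8 : (p : ℤ_[p]) ∣ 1 := by
      rw [← hx]
      exact dvd_pow h hp.1.ne_zero
    exact hpp.not_isUnit (isUnit_of_dvd_one h8)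
  have h9 := emultiplicity_pow_prime_sub_pow_prime hpp hodd h3 h7
  rw [hx, one_pow, sub_self, emultiplicity_zero] at h9
  by_contra hne
  have h10 : FiniteMultiplicity (p : ℤ_[p]) (x - 1) :=
    FiniteMultiplicity.of_prime_left hpp (sub_ne_zero.2 hne)
  rw [h10.emultiplicity_eq_multiplicity] at h9
  exact absurd h9 (by exact ENat.natCast_ne_top _ ∘ Eq.symm)

lemma isCompact_units (p : ℕ) [Fact p.Prime] :
    IsCompact {u : ℚ_[p]ˣ | ‖(u : ℚ_[p])‖ = 1} := by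
  have h1 : Continuous (Units.map (PadicInt.Coe.ringHom (p := p) : ℤ_[p] →* ℚ_[p])) :=
    Continuous.units_map _ continuous_subtype_val
  have h2 := isCompact_range h1
  convert h2 using 1
  ext u
  simp only [Set.mem_ofPred_eq, Set.mem_range]
  constructor
  · intro hu
    have hv : ‖((u⁻¹ : ℚ_[p]ˣ) : ℚ_[p])‖ = 1 := by
      rw [Units.val_inv_eq_inv_val, norm_inv, hu, inv_one]
    refine ⟨⟨⟨u, hu.le⟩, ⟨((u⁻¹ : ℚ_[p]ˣ) : ℚ_[p]), hv.le⟩, ?_, ?_⟩, ?_⟩
    · apply Subtype.ext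
      exact u.mul_inv
    · apply Subtype.ext
      exact u.inv_mul
    · ext
      rfl
  · rintro ⟨v, rfl⟩
    exact PadicInt.isUnit_iff.1 v.isUnit

theorem t_COMPACT : S_COMPACT := by
  intro Φ _ p _ Λ hp2 hΛ
  set C : Set (Φ → ℚ_[p]ˣ) := Set.pi Set.univ fun _ => {u : ℚ_[p]ˣ | ‖(u : ℚ_[p])‖ = 1} with hC
  have hcomp : IsCompact C := isCompact_univ_pi fun _ => isCompact_units p
  have hsub : (Λ.topologicalClosure : Set (Φ → ℚ_[p]ˣ)) ⊆ C := by
    rw [Subgroup.topologicalClosure_coe]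
    exact closure_minimal (fun u hu φ _ => hΛ u hu φ) hcomp.isClosed
  refine ⟨hcomp.of_isClosed_subset Λ.isClosed_topologicalClosure hsub, fun a ha hap => ?_⟩
  funext φ
  have h1 : ‖((a φ : ℚ_[p]ˣ) : ℚ_[p])‖ = 1 := hsub ha φ (Set.mem_univ _)
  have h2 : (a φ) ^ p = 1 := congrFun hap φ
  have h3 : ((a φ : ℚ_[p]ˣ) : ℚ_[p]) ^ p = 1 := by
    rw [← Units.val_pow_eq_pow_val, h2, Units.val_one]
  have h4 := eq_one_of_pow p hp2 (⟨((a φ : ℚ_[p]ˣ) : ℚ_[p]), h1.le⟩ : ℤ_[p]) (by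
    apply Subtype.ext
    push_cast
    exact h3)
  ext
  exact congrArg Subtype.val h4

end Pool.Agent.W143.PC
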